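import Pool.Agent.helper58.DC.Spec4
set_option autoImplicit false
open Pool.Agent Pool.Agent.helper58.DC
namespace Pool.Agent.helper71.DZ

open Classical in
/-- Extension by zero. -/
noncomputable def KC_ext {G : Type} [Group G] (N : Subgroup G) (ψ : N → ℂ) : G → ℂ :=
  fun g => if h : g ∈ N then ψ ⟨g, h⟩ else 0

theorem KC_ext_coe {G : Type} [Group G] (N : Subgroup G) (ψ : N → ℂ) (n : N) :
    KC_ext N ψ (n : G) = ψ n := by
  unfold KC_ext
  rw [dif_pos n.2]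

theorem KC_res {G : Type} [Group G] (N : Subgroup G) (ψ' : G → ℂ) (h : ∀ g, g ∉ N → ψ' g = 0) :
    KC_ext N (fun n : N => ψ' (n : G)) = ψ' := by
  funext g
  unfold KC_ext
  by_cases hg : g ∈ N
  · rw [dif_pos hg]
  · rw [dif_neg hg, h g hg]

theorem KC (hKI : KI_stmt) (hKS : KS_stmt) (hLF : LF_stmt) : KC_stmt := by
  intro G E A _ _ _ _ _ X p M χ hχ d C hC
  obtain ⟨h1, h2, -⟩ := hLF G p
  have hch := (h2 C hC).1.chain
  unfold DD.kC helper58.DC.kC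
  rw [h1 C, ← Nat.card_coe_set_eq]
  have hS : {P : Subgroup G | P ∈ C} = {P | P ∈ C.toFinset} := by
    ext P
    simp
  rw [hS]
  have key : ∀ ψ : nrm C.toFinset → ℂ,
      ψ ∈ DD.kset p M X.inc χ (nrm C.toFinset) {P | P ∈ C.toFinset} d ⊤ ↔
      (KC_ext (nrm C.toFinset) ψ ∈ IrrOn (nrm C.toFinset) ∧
        Defect p (nrm C.toFinset) (KC_ext (nrm C.toFinset) ψ) (d : ℤ) ∧
        Induces M (KC_ext (nrm C.toFinset) ψ) χ ∧
        (X.stab C.toFinset (KC_ext (nrm C.toFinset) ψ)).map X.proj = ⊤) := by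
    intro ψ
    obtain ⟨k1, k2, k3⟩ := hKI G p M (nrm C.toFinset) ψ (KC_ext (nrm C.toFinset) ψ) (fun g => rfl)
    have k4 := (hKS G E A X C.toFinset hch ψ (KC_ext (nrm C.toFinset) ψ) (fun g => rfl)).2
    unfold DD.kset
    rw [Set.mem_ofPred_eq, k1, k2 d, k3 χ hχ, k4]
  refine Nat.card_congr ⟨fun ψ => ⟨KC_ext (nrm C.toFinset) ψ.1, (key ψ.1).1 ψ.2⟩,
    fun ψ' => ⟨fun n => ψ'.1 (n : G), ?_⟩, ?_, ?_⟩
  · rw [key, KC_res _ _ ψ'.2.1.1]
    exact ψ'.2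
  · intro ψ
    apply Subtype.ext
    funext n
    exact KC_ext_coe _ _ n
  · intro ψ'
    apply Subtype.ext
    exact KC_res _ _ ψ'.2.1.1

end Pool.Agent.helper71.DZ
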